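import Pool.Agent.R242.SP.Main
import Pool.Agent.R242.SP.A
import Pool.Agent.R242.SP.B
import Pool.Agent.R242.SP.C
import Pool.Agent.R242.SP.DE

/-!
# MP_47966f_an: complementary spectra for type II factorisations of Lebesgue measure

`part N 1 n = ν_1 * ν_3 * ⋯ * ν_{2n-1}` and `part N 2 n = ν_2 * ν_4 * ⋯ * ν_{2n}` are the partial
convolutions; `μ` and `ν` are their weak limits (the type II pair of `N`). Every spectrum `Λ` of `μ`
has a complementary spectrum `Γ` of `ν`: `Λ ⊕ Γ = ℤ`.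
-/

open MeasureTheory Pool.Agent.R242.SP

namespace Pool.Agent.Results.MP_47966f_an.ComplementarySpectra

/-- For every sequence `N` (`N_k ≥ 2`) and the type II pair `(μ, ν)` of `N`, every spectrum `Λ` of
`μ` has a spectrum `Γ` of `ν` such that every integer has exactly one representation `x + y`,
`x ∈ Λ`, `y ∈ Γ`, and all these sums are integers. -/
theorem result : ∀ (N : ℕ → ℕ), (∀ k, 1 ≤ k → 2 ≤ N k) →
    ∀ (μ ν : Measure ℝ) [IsProbabilityMeasure μ] [IsProbabilityMeasure ν],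
    IsWeakLimit (part N 1) μ → IsWeakLimit (part N 2) ν →
    ∀ Λ : Set ℝ, IsSpectrum μ Λ →
    ∃ Γ : Set ℝ, IsSpectrum ν Γ ∧
      (∀ z : ℤ, ∃! p : ℝ × ℝ, p.1 ∈ Λ ∧ p.2 ∈ Γ ∧ p.1 + p.2 = z) ∧
      (∀ x ∈ Λ, ∀ y ∈ Γ, ∃ z : ℤ, x + y = z) := by
  intro N hN μ ν _ _ hμ hν Λ hΛ
  exact main a b1 b2 b3 b4 s_C d e N hN μ ν hμ hν Λ hΛ

end Pool.Agent.Results.MP_47966f_an.ComplementarySpectra
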